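import Mathlib
import Pool.Agent.P.MP_2f0599_an.Defs
import Pool.Agent.P.MP_2f0599_an.Defs3
import Pool.Agent.P.MP_2f0599_an.TQ.Final

set_option autoImplicit false

open Pool.Agent.P.MP_2f0599_an

namespace Pool.Agent.Results.MP_2f0599_an.TrivialQuotient

/-- It is false that every F-algebra with a TLIM on `WAP(A)` has the invariant subspace property
for `n = 1`, even for representations by continuous operators that are jointly continuous on
`S × X`, act trivially on `E ⧸ H`, have uniformly continuous orbit maps and convex slices. -/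
theorem result (𝕜 : Type) [RCLike 𝕜] :
    ¬ ∀ (A : Type) [NonUnitalNormedRing A] [NormedSpace ℂ A] [IsScalarTower ℂ A A]
      [SMulCommClass ℂ A A] [CompleteSpace A] (M : Type) [CStarAlgebra M]
      (ev : M → A → ℂ) (op : M → A → M) (S : Subsemigroup A),
      IsFAlg ev op → (S : Set A) = P1 ev → HasTLIM op (WAP op) S → UnifFW 𝕜 S 1 := fun h =>
  TQ.not_unifFW_tree 𝕜 (h _ _ _ _ (TQ.SS TQ.kT) (TQ.isFAlg TQ.kT) rfl TQ.hasTLIM)

end Pool.Agent.Results.MP_2f0599_an.TrivialQuotient
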